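import Pool.Agent.helper87.AU.SpecQ1

/-!
# Project au: QH1, the degree of `dz` is `2 g - 2`
-/

namespace Pool.Agent.helper53.AU

open scoped Classical IntermediateField
open Polynomial (aeval)

theorem QH1_place (hZ : QZ3_stmt) (k F : Type) [Field k] [IsAlgClosed k] [Field F] [Algebra k F]
    (hFF : IsFF k F) : Nonempty (Place k F) := by
  obtain ⟨x, hx, hfd⟩ := hFF
  have h := (hZ k F ⟨x, hx, hfd⟩ x hx).1
  by_contra hne
  rw [not_nonempty_iff] at hne
  have h0 : ∑ᶠ P : Place k F, max (P.ord x) 0 = 0 := by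
    rw [finsum_of_isEmpty]
  rw [h0] at h
  have h1 : 0 < degx k x := by
    unfold degx
    exact Module.finrank_pos
  omega

theorem QH1 (hZ : QZ3_stmt) (h4 : QV4_stmt) (h5 : QV5_stmt) (hR : QR5_stmt) (hA : QA1_stmt)
    (hH : QH0_stmt) : QH1_stmt := by
  intro k F _ _ _ _ hFF g hg D z hz
  obtain ⟨P₀⟩ := QH1_place hZ k F hFF
  obtain ⟨C, hC⟩ := hR k F hFF P₀
  have hn : ∃ n : ℕ, C ≤ n ∧ 0 < n ∧ (n : k) ≠ 0 := by
    by_cases h1 : ((C + 1 : ℕ) : k) = 0
    · refine ⟨C + 2, by omega, by omega, ?_⟩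
      intro h2
      push_cast at h1 h2
      have h3 : (1 : k) = 0 := by
        calc (1 : k) = (C + 2) - (C + 1) := by ring
          _ = 0 := by rw [h1, h2]; ring
      exact one_ne_zero h3
    · exact ⟨C + 1, by omega, by omega, h1⟩
  obtain ⟨n, hCn, hn0, hnk⟩ := hn
  obtain ⟨x, hxR, hx0, hxo⟩ := hC n hCn
  obtain ⟨u, μ, hu⟩ := hA k F hFF P₀ x n hn0 hxR hxo
  have hD : D ≠ 0 := by
    intro h
    rw [h] at hz
    exact hz rfl
  obtain ⟨hDx, hfin, hsum⟩ := hH k F hFF g hg P₀ x n u μ hu hnk D hD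
  have hq : D z / D x ≠ 0 := div_ne_zero hz hDx
  have heq : (fun P : Place k F => P.dord D z) =
      fun P => P.dord D x + P.ord (D z / D x) := by
    funext P
    unfold Place.dord
    rw [P.ord_div hz hDx]
    ring
  have hfin2 := h4 k F hFF _ hq
  have hsum2 := h5 k F hFF _ hq
  rw [heq]
  constructor
  · refine (hfin.union hfin2).subset ?_
    exact Function.support_add _ _
  · rw [finsum_add_distrib hfin hfin2, hsum, hsum2]
    ring

end Pool.Agent.helper53.AU
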