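import Pool.Agent.helper87.AU.SpecQ1

/-!
# Project au: QV6, principal divisors
-/

namespace Pool.Agent.helper53.AU

open scoped Classical IntermediateField
open Polynomial (aeval)

theorem QV6 (h4 : QV4_stmt) (h5 : QV5_stmt) : QV6_stmt := by
  intro k F _ _ _ _ hFF f hf
  have hfin := h4 k F hFF f hf
  have hprin : ∀ P : Place k F, prin (k := k) f P = P.ord f := by
    intro P
    unfold prin
    rw [dif_pos hfin]
    rfl
  refine ⟨hprin, ?_, ?_⟩
  · have h := h5 k F hFF f hf
    unfold degD
    rw [Finsupp.sum]
    rw [← h]
    symm
    have h1 : (fun P : Place k F => P.ord f) = fun P => (prin (k := k) f) P := by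
      funext P; rw [hprin]
    rw [h1]
    exact finsum_eq_sum_of_support_subset _ (by intro P hP; simpa using hP)
  · intro D
    unfold ell
    have hinj : Function.Injective (LinearMap.mulLeft k f) := by
      intro a b hab
      simp only [LinearMap.mulLeft_apply] at hab
      exact mul_left_cancel₀ hf hab
    have hmap : (RR (D + prin (k := k) f)).map (LinearMap.mulLeft k f) = RR D := by
      ext g
      constructor
      · rintro ⟨a, ha, rfl⟩
        rcases ha with ha | ha
        · left; simp [ha]
        · by_cases ha0 : a = 0
          · left; simp [ha0]
          right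
          intro P
          have h1 := ha P
          rw [Finsupp.add_apply, hprin] at h1
          rw [LinearMap.mulLeft_apply, P.ord_mul f a hf ha0]
          omega
      · intro hg
        refine ⟨f⁻¹ * g, ?_, by simp [hf]⟩
        rcases hg with hg | hg
        · left; simp [hg]
        · by_cases hg0 : g = 0
          · left; simp [hg0]
          right
          intro P
          have h1 := hg P
          rw [Finsupp.add_apply, hprin, P.ord_mul _ _ (inv_ne_zero hf) hg0, P.ord_inv hf]
          omega
    rw [← hmap]
    exact (Submodule.equivMapOfInjective _ hinj _).finrank_eq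

end Pool.Agent.helper53.AU
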