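import Pool.Agent.helper75.AU.SpecR

/-! # Project au, module P5A -/

set_option linter.unusedVariables false

namespace Pool.Agent.helper75.AU

open scoped Classical
open Pool.Agent.helper53.AU MulAction

theorem P5A (h1 : BA1_stmt) (h3 : BA3_stmt) (h4 : BA4_stmt) (hF1 : F1_stmt) (hF2 : F2_stmt) :
    P5A_stmt := by
  intro k G X _ _ _ _ _ _ l R x y hl hN hlN htwo hy
  obtain ⟨hP3, hPmem, hP3mem, hPconj, hPnorm, hPinv, hcardx, hh3, ⟨m, hm⟩, hcx⟩ :=
    h1 k G X (l + 1) R x
  have hS := hF1 k G X l R (R.P x) hl.mod3 hP3 htwo.wild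
  obtain ⟨-, x1, x2, hne, hx1, hx2, -, -⟩ := hS
  -- wild points lie in the orbit of `x`
  have horb : ∀ z : X, (∀ s ∈ R.P x, s • z = z) → z ∈ orbit G x := by
    intro z hz
    have hst : stabilizer G z ≠ ⊥ := by
      intro hbot
      apply htwo.wild
      rw [Subgroup.eq_bot_iff_forall]
      intro s hs
      have : s ∈ stabilizer G z := mem_stabilizer_iff.2 (hz s hs)
      rw [hbot] at this
      exact Subgroup.mem_bot.1 this
    rcases htwo.cov z hst with h | h
    · exact h
    · exfalso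
      obtain ⟨a, rfl⟩ := h
      apply hst
      change stabilizer G (a • y) = ⊥
      rw [stabilizer_smul_eq_stabilizer_map_conj, hy, Subgroup.map_bot]
  have hTeq : ∀ z : X, (∀ s ∈ R.P x, s • z = z) → TS R (R.P x) z = R.T x := by
    intro z hz
    obtain ⟨a, rfl⟩ := horb z hz
    change TS R (R.P x) (a • x) = R.T x
    obtain ⟨gP3, gPmem, gP3mem, -, -, -, gcard, -, -, -⟩ := h1 k G X (l + 1) R (a • x)
    have hle : R.P x ≤ R.P (a • x) := by
      intro s hs
      apply gP3mem s (hz s hs)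
      obtain ⟨n, hn⟩ := hP3 ⟨s, hs⟩
      exact ⟨n, by simpa [Subtype.ext_iff] using hn⟩
    have hcard : Nat.card (R.P (a • x)) ≤ Nat.card (R.P x) := (hPinv a).1.le
    have heq : R.P x = R.P (a • x) := Subgroup.eq_of_le_of_card_ge hle hcard
    obtain ⟨-, -, -, hT, -⟩ := h3 k G X (l + 1) R (a • x) (R.P x)
    rw [hT heq.ge, (hPinv a).2.2]
  have hT := (hF2 k G X l R (R.P x) hP3).1 x1 x2 hne hx1 hx2
  rw [hTeq x1 hx1, hTeq x2 hx2] at hT
  -- the numbers
  have hTy : R.T y = 0 := by
    obtain ⟨-, -, -, hT1, -, hT2, -⟩ := h3 k G X (l + 1) R y ⊤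
    obtain ⟨-, gPmem, -⟩ := h1 k G X (l + 1) R y
    rw [← hT1 le_top]
    apply hT2
    rw [eq_bot_iff]
    intro s hs
    have h5 := ((gPmem s).1 hs.2).1
    have h6 : s ∈ stabilizer G y := mem_stabilizer_iff.2 h5
    rwa [hy] at h6
  have hoy : oo G y = Nat.card G := by
    have := (h4 G X).1 y
    rw [hy] at this
    simpa using this
  have hox := (h4 G X).1 x
  rw [hcardx] at hox
  have hrh := htwo.rh
  rw [hTy, hoy] at hrh
  have ho2 : 2 ≤ oo G x := by
    have h7 : ({x1, x2} : Set X) ⊆ orbit G x := by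
      intro z hz
      rcases hz with rfl | rfl
      · exact horb _ hx1
      · exact horb _ hx2
    have h8 : Set.ncard ({x1, x2} : Set X) = 2 := Set.ncard_pair hne
    have h9 := Set.ncard_le_ncard h7 (Set.toFinite _)
    rw [h8] at h9
    exact h9
  have hqh : 0 < qq R x * hh R x := by
    rcases Nat.eq_zero_or_pos (qq R x * hh R x) with h0 | h0
    · rw [h0, Nat.mul_zero] at hox
      have := Nat.card_pos (α := G)
      omega
    · exact h0
  have hdvd : oo G x ∣ 2 * l := by
    have h10 : oo G x * R.T x = 2 * l + oo G x * (1 + qq R x * hh R x) := by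
      rw [Nat.mul_add, hox]
      omega
    have h11 : oo G x ∣ 2 * l + oo G x * (1 + qq R x * hh R x) := by
      rw [← h10]
      exact dvd_mul_right _ _
    exact (Nat.dvd_add_left (dvd_mul_right _ _)).1 h11
  have hnl : ¬ l ∣ oo G x := by
    intro h
    apply hlN
    rw [← hox]
    exact h.mul_right _
  have hcop : Nat.Coprime (oo G x) l := ((Nat.Prime.coprime_iff_not_dvd hl.prime).2 hnl).symm
  have h2 : oo G x ∣ 2 := hcop.dvd_of_dvd_mul_right hdvd
  have h2' : oo G x = 2 := le_antisymm (Nat.le_of_dvd (by norm_num) h2) ho2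
  rw [h2'] at hrh hox
  omega

end Pool.Agent.helper75.AU
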