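import Pool.Agent.helper75.AU.SpecR

/-! # Project au, module S64 -/

set_option linter.unusedVariables false

namespace Pool.Agent.helper75.AU

open scoped Classical Pointwise
open Pool.Agent.helper53.AU MulAction

theorem S64_thr_normal (G : Type) [Group G] : (thr G).Normal := by
  constructor
  intro n hn a
  refine Subgroup.closure_induction (p := fun n _ => a * n * a⁻¹ ∈ thr G) ?_ ?_ ?_ ?_ hn
  · rintro x ⟨m, hm⟩
    apply Subgroup.subset_closure
    refine ⟨m, ?_⟩
    rw [conj_pow, hm]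
    group
  · simp
  · intro x y _ _ hx hy
    have : a * (x * y) * a⁻¹ = (a * x * a⁻¹) * (a * y * a⁻¹) := by group
    rw [this]
    exact Subgroup.mul_mem _ hx hy
  · intro x _ hx
    have : a * x⁻¹ * a⁻¹ = (a * x * a⁻¹)⁻¹ := by group
    rw [this]
    exact Subgroup.inv_mem _ hx

theorem S64 (h1 : BA1_stmt) (h3 : BA3_stmt) (h4 : BA4_stmt) (hC4 : C4_stmt) : S64_stmt := by
  intro k G X _ _ _ _ _ _ l R x y u h' e' hl hN htwo hy hnum he4
  by_contra hcon
  haveI hthn := S64_thr_normal G
  set H0 : Subgroup G := ⁅(⊤ : Subgroup G), thr G⁆ with hH0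
  have hH0n : H0.Normal := Subgroup.commutator_normal _ _
  have hle : H0 ≤ thr G := Subgroup.commutator_le_right _ _
  obtain ⟨hP3, hPmem, hP3mem, hPconj, hPnorm, hPinv, hcardx, hh3, ⟨m, hm⟩, hcx⟩ :=
    h1 k G X (l + 1) R x
  obtain ⟨S0, hS0⟩ := htwo.syl
  -- `P_x` is not contained in `H0`
  have hnot : ¬ R.P x ≤ H0 := by
    intro hc
    apply hcon
    apply le_antisymm hle
    unfold thr
    rw [Subgroup.closure_le]
    rintro s ⟨n, hn⟩
    have hz : IsPGroup 3 (Subgroup.zpowers s) := by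
      haveI : Fact (Nat.Prime 3) := ⟨by norm_num⟩
      rintro ⟨t, ht⟩
      obtain ⟨i, rfl⟩ := Subgroup.mem_zpowers_iff.1 ht
      refine ⟨n, ?_⟩
      rw [Subtype.ext_iff]
      simp only [Subgroup.coe_pow, Subgroup.coe_one]
      rw [← zpow_natCast, ← zpow_mul, mul_comm, zpow_mul, zpow_natCast, hn, one_zpow]
    haveI : Fact (Nat.Prime 3) := ⟨by norm_num⟩
    obtain ⟨S, hS⟩ := hz.exists_le_sylow
    obtain ⟨a, ha⟩ := MulAction.exists_smul_eq G S0 S
    have h5 : s ∈ (S : Subgroup G) := hS (Subgroup.mem_zpowers s)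
    rw [← ha] at h5
    have h6 : s ∈ MulAut.conj a • (S0 : Subgroup G) := h5
    rw [hS0, Subgroup.mem_pointwise_smul_iff_inv_smul_mem] at h6
    have h7 := hH0n.conj_mem _ (hc h6) a
    have h8 : a * ((MulAut.conj a)⁻¹ • s) * a⁻¹ = s := by
      rw [← map_inv, MulAut.smul_def, MulAut.conj_apply]
      group
    rwa [h8] at h7
  -- the subgroup `Q`
  haveI : Fact (Nat.Prime 3) := ⟨by norm_num⟩
  obtain ⟨Q, hQle, hQH, hQcard⟩ : ∃ Q : Subgroup G, Q ≤ R.P x ∧ H0 ⊓ R.P x ≤ Q ∧
      Nat.card (R.P x) = 3 * Nat.card Q := by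
    have hm' : Nat.card (R.P x) = 3 ^ m := hm
    have hsub : IsPGroup 3 (H0.subgroupOf (R.P x)) := hP3.to_subgroup _
    obtain ⟨n, hn⟩ := IsPGroup.iff_card.1 hsub
    have hlt : n < m := by
      have h7 : Nat.card (H0.subgroupOf (R.P x)) < Nat.card (R.P x) := by
        apply lt_of_le_of_ne (Subgroup.card_le_card_group _)
        intro h8
        apply hnot
        rw [← Subgroup.subgroupOf_eq_top]
        exact Subgroup.eq_top_of_card_eq _ h8
      rw [hn, hm'] at h7
      exact (Nat.pow_lt_pow_iff_right (by norm_num)).1 h7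
    obtain ⟨K, hK, hKle⟩ := Sylow.exists_subgroup_card_pow_prime_le (G := R.P x) (p := 3)
      (n := n) (m := m - 1) (by rw [hm']; exact pow_dvd_pow _ (Nat.sub_le _ _))
      (H0.subgroupOf (R.P x)) hn (by omega)
    refine ⟨K.map (R.P x).subtype, ?_, ?_, ?_⟩
    · exact Subgroup.map_subtype_le K
    · rintro s ⟨hs1, hs2⟩
      exact ⟨⟨s, hs2⟩, hKle (Subgroup.mem_subgroupOf.2 hs1), rfl⟩
    · rw [Subgroup.card_map_of_injective (Subgroup.subtype_injective _), hK, hm',
        ← pow_succ']
      congr 1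
      omega
  have hcomm : ∀ c ∈ stabilizer G x, ∀ s ∈ R.P x, c * s * c⁻¹ * s⁻¹ ∈ Q := by
    intro c hc s hs
    apply hQH
    constructor
    · have hs3 : s ∈ thr G := by
        apply Subgroup.subset_closure
        obtain ⟨n, hn⟩ := hP3 ⟨s, hs⟩
        exact ⟨n, by simpa [Subtype.ext_iff] using hn⟩
      exact Subgroup.commutator_mem_commutator (Subgroup.mem_top c) hs3
    · exact Subgroup.mul_mem _ (hPnorm c s (mem_stabilizer_iff.1 hc) hs) (Subgroup.inv_mem _ hs)
  have hkey := (hC4 k G X (l + 1) R x Q hQle (by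
    intro c hc s hs
    have h9 := hcomm c hc s (hQle hs)
    have h10 : c * s * c⁻¹ = (c * s * c⁻¹ * s⁻¹) * s := by group
    rw [h10]
    exact Subgroup.mul_mem _ h9 hs) hQcard).2 hcomm
  -- numbers
  have hox := (h4 G X).1 x
  have hoy := (h4 G X).1 y
  obtain ⟨-, -, -, -, -, -, hcardy, -, ⟨my, hmy⟩, -⟩ := h1 k G X (l + 1) R y
  rw [hcardx] at hox
  rw [hcardy] at hoy
  obtain ⟨-, -, -, hTtop, -, hTbot, -, -, hTev, hTq⟩ := h3 k G X (l + 1) R x ⊤
  obtain ⟨-, -, -, hTtop', -, hTbot', -, -, hTev', hTq'⟩ := h3 k G X (l + 1) R y ⊤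
  have hrh := htwo.rh
  have hq3 : 3 ≤ qq R x := by
    rcases Nat.eq_zero_or_pos m with h0 | h0
    · exfalso
      apply htwo.wild
      rw [h0, pow_zero] at hm
      exact Subgroup.card_eq_one.1 hm
    · rw [hm]
      calc 3 = 3 ^ 1 := (pow_one 3).symm
        _ ≤ 3 ^ m := Nat.pow_le_pow_right (by norm_num) h0
  have hop : 0 < oo G x := by
    rcases Nat.eq_zero_or_pos (oo G x) with h0 | h0
    · rw [h0, Nat.zero_mul] at hox
      omega
    · exact h0
  have hop' : 0 < oo G y := by
    rcases Nat.eq_zero_or_pos (oo G y) with h0 | h0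
    · rw [h0, Nat.zero_mul] at hoy
      omega
    · exact h0
  set q := qq R x with hq
  set h := hh R x with hhd
  set T := R.T x with hT
  set O := oo G x with hO
  set O2 := oo G y with hO2
  set N := Nat.card G with hNd
  rcases Nat.eq_zero_or_pos my with h0 | h0
  · -- type (B)
    have hPy : R.P y = ⊥ := by
      rw [h0, pow_zero] at hmy
      exact Subgroup.card_eq_one.1 hmy
    have hTy : R.T y = 0 := by
      rw [← hTtop' le_top]
      exact hTbot' (by rw [hPy, inf_bot_eq])
    have hqy : qq R y = 1 := by rw [hmy, h0, pow_zero]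
    rw [hTy] at hrh
    rw [hqy, one_mul] at hoy
    have he : 4 ≤ hh R y := by
      rw [hnum.hy]
      calc 4 ≤ e' := he4
        _ = 1 * e' := (one_mul _).symm
        _ ≤ u * e' := Nat.mul_le_mul_right _ hnum.pos.2.1
    have h5 : 4 * O2 ≤ N := by
      rw [← hoy, mul_comm]
      exact Nat.mul_le_mul_left _ he
    -- 4 * O * (T-1) <= 8 l + N < 2 N = 2 O q h
    have h6 : 4 * (O * T) < 2 * (O * (q * h)) + 4 * O := by
      rw [hox]
      omega
    have h7 : 4 * T < 2 * (q * h) + 4 := by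
      by_contra hc
      push Not at hc
      have : O * (2 * (q * h) + 4) ≤ O * (4 * T) := Nat.mul_le_mul_left _ hc
      have e1 : O * (2 * (q * h) + 4) = 2 * (O * (q * h)) + 4 * O := by ring
      have e2 : O * (4 * T) = 4 * (O * T) := by ring
      omega
    have hq3' : q = 3 := by
      have h8 : q ≤ 4 := by omega
      rcases Nat.eq_zero_or_pos m with h9 | h9
      · rw [h9, pow_zero] at hm
        omega
      · have h10 : 3 ∣ q := by
          rw [hm]
          exact dvd_pow_self _ (by omega)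
        omega
    have hT2 : T = 2 := by omega
    have hh1 : h = 1 := by
      rw [hq3', hT2] at hkey
      rcases Nat.eq_zero_or_pos h with h9 | h9
      · rw [h9, Nat.mul_zero, Nat.mul_zero] at hox
        omega
      · omega
    have hx := hnum.hx
    rw [← hhd, hh1] at hx
    have hu1 : u = 1 := Nat.eq_one_of_mul_eq_one_right hx.symm
    have hh1' : h' = 1 := Nat.eq_one_of_mul_eq_one_left hx.symm
    have ho := hnum.ox
    have hoy' := hnum.oy
    rw [hqy, ← hq, hq3', hh1'] at hoy'
    rw [hq3', hh1] at hox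
    rw [hT2] at hrh
    have hll := hl.large
    omega
  · -- type (C)
    have hq3' : 3 ≤ qq R y := by
      rw [hmy]
      calc 3 = 3 ^ 1 := (pow_one 3).symm
        _ ≤ 3 ^ my := Nat.pow_le_pow_right (by norm_num) h0
    have hTy : 2 ≤ R.T y := by omega
    have h5 : O2 * 2 ≤ O2 * R.T y := Nat.mul_le_mul_left _ hTy
    -- O * (T - 1) < 2 l, so 4 O (T-1) < 8 l < N = O q h
    have h6 : 4 * (O * T) < O * (q * h) + 4 * O := by
      rw [hox]
      omega
    have h7 : 4 * T < q * h + 4 := by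
      by_contra hc
      push Not at hc
      have : O * (q * h + 4) ≤ O * (4 * T) := Nat.mul_le_mul_left _ hc
      have e1 : O * (q * h + 4) = O * (q * h) + 4 * O := by ring
      have e2 : O * (4 * T) = 4 * (O * T) := by ring
      omega
    omega

end Pool.Agent.helper75.AU
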